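import Pool.Agent.Q93.CPP.Defs
import Pool.Agent.Q93.CPP.Main

/-!
If `(k, l)` is a complete Pick pair and `h` is a kernel, then `(k, l h)` is a complete Pick pair.

Idea of the proof: a complete Pick pair has a Shimorin certificate `p[z]` at every point `z`
(`Pool.Agent.H770R3.ShimF`); the same kernels `p[z]` are a certificate for `(k, l h)`, because
`(l h)^z - p[z] l h = (l^z - p[z] l) h + (l(·,z) l(z,·) / l(z,z)) h^z`; and a certificate gives the
one-point extension property, hence, by a compactness argument, multipliers on `X`.
-/

set_option autoImplicit false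

namespace Pool.Agent.Results.MP_1a2443_an.MultiplySecondKernel

open Q93.CPP
open Pool.Agent.Results.MP_e3a8c8_an.ShimorinCertificates (Kernel)

universe u

theorem result : ∀ (X : Type u) [Nonempty X] (k l h : Kernel X),
    (∀ x, k.fn x x ≠ 0) → (∀ x, l.fn x x ≠ 0) → IsCompletePickPair k l →
      IsCompletePickPair k (mulKernel l h) :=
  fun _ _ k l h hk hl hcp => main k l h hk hl hcp

end Pool.Agent.Results.MP_1a2443_an.MultiplySecondKernel
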